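import Mathlib

/-!
# MP_f12eed_co: the global and the host-graph exclusive-copy numbers differ (Q1 is false)

For the path `P3` on three vertices and `n = 8` one has `s(8, P3) ≤ 13 < 14 ≤ p(8, P3)`.
-/

namespace Pool.Agent.Results.MP_f12eed_co.PathThree

open Finset SimpleGraph

/-- Two edges are disjoint. -/
def Disj {V : Type} (e e' : Sym2 V) : Prop := ∀ v, v ∈ e → v ∉ e'

/-- The copy `c` of `G` in `H` is `f`-exclusive: for every edge `e` of the copy, `f e` avoids all
vertices of the copy. -/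
def Exclusive {V W : Type} {G : SimpleGraph W} {H : SimpleGraph V} (f : Sym2 V → Sym2 V)
    (c : G.Copy H) : Prop :=
  ∀ e ∈ G.edgeSet, ∀ w, c w ∉ f (e.map c)

/-- `f` is `G`-blocking on `H`: no copy of `G` in `H` is `f`-exclusive. -/
def Blocking {V W : Type} (G : SimpleGraph W) (H : SimpleGraph V) (f : Sym2 V → Sym2 V) : Prop :=
  ∀ c : G.Copy H, ¬ Exclusive f c

/-- `s(n, G)`: the largest size of an `n`-vertex graph `H` with a `G`-blocking map
`f : E(H) → E(H)` such that `f e` is disjoint from `e` for every edge `e`. -/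
noncomputable def s {W : Type} (n : ℕ) (G : SimpleGraph W) : ℕ :=
  sSup {m | ∃ (H : SimpleGraph (Fin n)) (f : Sym2 (Fin n) → Sym2 (Fin n)),
    (∀ e ∈ H.edgeSet, f e ∈ H.edgeSet ∧ Disj e (f e)) ∧ Blocking G H f ∧ H.edgeSet.ncard = m}

/-- `p(n, G)`: the largest `m ≤ C(n, 2)` such that some `G`-blocking map `f : E(K_n) → E(K_n)` has
at least `m` edges `e` with `f e` disjoint from `e`. -/
noncomputable def p {W : Type} (n : ℕ) (G : SimpleGraph W) : ℕ :=
  sSup {m | m ≤ n.choose 2 ∧ ∃ f : Sym2 (Fin n) → Sym2 (Fin n),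
    (∀ e ∈ (⊤ : SimpleGraph (Fin n)).edgeSet, f e ∈ (⊤ : SimpleGraph (Fin n)).edgeSet) ∧
    m ≤ {e | e ∈ (⊤ : SimpleGraph (Fin n)).edgeSet ∧ Disj e (f e)}.ncard ∧
    Blocking G (⊤ : SimpleGraph (Fin n)) f}

/-! ### The combinatorial core of the upper bound -/

abbrev Rel := Fin 8 → Fin 8 → Bool

structure Good (A : Rel) (F : Fin 8 → Fin 8 → Fin 8 → Prop) : Prop where
  symm : ∀ a b, A a b = A b a
  irr : ∀ a, A a a = false
  host : ∀ a b, A a b = true → ∃ x y, A x y = true ∧ x ≠ a ∧ x ≠ b ∧ y ≠ a ∧ y ≠ b ∧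
    ∀ z, F a b z → z = x ∨ z = y
  block : ∀ a b c, A a b = true → A b c = true → a ≠ c → F a b c ∨ F b c a

def jj (A : Rel) (a b c : Fin 8) : ℕ := (A a b).toNat + (A b c).toNat + (A c a).toNat

def cost (A : Rel) (w : Fin 8 → Fin 8 → Fin 8 → ℕ) : ℕ :=
  ∑ a, ∑ b, ∑ c, if a ≠ b ∧ b ≠ c ∧ c ≠ a then w a b c * (jj A a b c - 1) else 0

def size (A : Rel) : ℕ := ∑ a, ∑ b, (A a b).toNat

theorem cyc (T : Fin 8 → Fin 8 → Fin 8 → ℕ) :
    ∑ a, ∑ b, ∑ c, T b c a = ∑ a, ∑ b, ∑ c, T a b c := by
  rw [sum_comm]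
  exact sum_congr rfl fun b _ => sum_comm

theorem cyc' (T : Fin 8 → Fin 8 → Fin 8 → ℕ) :
    ∑ a, ∑ b, ∑ c, T c a b = ∑ a, ∑ b, ∑ c, T a b c :=
  (cyc fun a b c => T c a b).symm

open Classical in
theorem count {A : Rel} {F : Fin 8 → Fin 8 → Fin 8 → Prop} (h : Good A F) (B : Rel)
    (hB : ∀ a b, B a b = true → A a b = true) (w : Fin 8 → Fin 8 → Fin 8 → ℕ)
    (hw : ∀ a b c, w a b c = w b c a) (M : Fin 8 → Fin 8 → ℕ)
    (hM : ∀ a b x y, B a b = true → A x y = true → x ≠ a → x ≠ b → y ≠ a → y ≠ b →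
      w a b x + w a b y ≤ M a b) :
    cost B w ≤ 3 * ∑ a, ∑ b, if B a b = true then M a b else 0 := by
  set Y : Fin 8 → Fin 8 → Fin 8 → ℕ := fun a b c =>
    if B a b = true ∧ F a b c then w a b c else 0 with hY
  have h1 : ∀ a b, ∑ c, Y a b c ≤ if B a b = true then M a b else 0 := by
    intro a b
    by_cases hab : B a b = true
    · obtain ⟨x, y, hxy, h1, h2, h3, h4, h5⟩ := h.host a b (hB a b hab)
      rw [if_pos hab]
      refine le_trans ?_ (hM a b x y hab hxy h1 h2 h3 h4)
      calc ∑ c, Y a b c ≤ ∑ c, ((if c = x then w a b c else 0) + if c = y then w a b c else 0) := by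
            refine sum_le_sum fun c _ => ?_
            simp only [hY]
            by_cases hc : F a b c
            · rcases h5 c hc with rfl | rfl <;> split_ifs <;> simp_all
            · simp [hc]
        _ = _ := by simp [sum_add_distrib]
    · simp [hY, hab]
  have h2 : cost B w ≤ ∑ a, ∑ b, ∑ c, (Y a b c + Y b c a + Y c a b) := by
    refine sum_le_sum fun a _ => sum_le_sum fun b _ => sum_le_sum fun c _ => ?_
    split_ifs with hd
    · obtain ⟨hab, hbc, hca⟩ := hd
      have e1 := hw a b c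
      have e2 := hw b c a
      have b1 := fun u v => h.block a b c (hB _ _ u) (hB _ _ v) hca.symm
      have b2 := fun u v => h.block b c a (hB _ _ u) (hB _ _ v) hab.symm
      have b3 := fun u v => h.block c a b (hB _ _ u) (hB _ _ v) hbc.symm
      simp only [hY, jj, ← e2, ← e1]
      by_cases f1 : F a b c <;> by_cases f2 : F b c a <;> by_cases f3 : F c a b <;>
        cases hx : B a b <;> cases hy : B b c <;> cases hz : B c a <;> simp_all <;> omega
    · exact Nat.zero_le _
  have h3 := cyc Y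
  have h4 := cyc' Y
  simp only [sum_add_distrib] at h2
  rw [h3, h4] at h2
  have h5 : ∑ a, ∑ b, ∑ c, Y a b c ≤ ∑ a, ∑ b, if B a b = true then M a b else 0 :=
    sum_le_sum fun a _ => sum_le_sum fun b _ => h1 a b
  omega

theorem sum_const_size (B : Rel) (k : ℕ) :
    (∑ a, ∑ b, if B a b = true then k else 0) = k * size B := by
  unfold size
  rw [mul_sum]
  refine sum_congr rfl fun a _ => ?_
  rw [mul_sum]
  refine sum_congr rfl fun b _ => ?_
  cases B a b <;> simp

theorem count_one {A : Rel} {F : Fin 8 → Fin 8 → Fin 8 → Prop} (h : Good A F) (B : Rel)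
    (hB : ∀ a b, B a b = true → A a b = true) : cost B (fun _ _ _ => 1) ≤ 6 * size B := by
  have := count h B hB (fun _ _ _ => 1) (fun _ _ _ => rfl) (fun _ _ => 2)
    (fun _ _ _ _ _ _ _ _ _ _ => le_rfl)
  rw [sum_const_size] at this
  omega

theorem exists_K4 {A : Rel} {F : Fin 8 → Fin 8 → Fin 8 → Prop} (h : Good A F)
    (hs : 28 ≤ size A) : ∃ a b x y, A a b = true ∧ A x y = true ∧ A a x = true ∧ A b x = true ∧
      A a y = true ∧ A b y = true := by
  by_contra hno
  have h1 := count h A (fun _ _ h => h) (fun a b c => jj A a b c)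
    (fun a b c => by simp only [jj]; omega) (fun _ _ => 5) (by
      intro a b x y hab hxy _ _ _ _
      have e1 := h.symm x a
      have e2 := h.symm y a
      simp only [jj]
      by_contra hc
      apply hno
      refine ⟨a, b, x, y, hab, hxy, ?_⟩
      revert hc
      rw [e1, e2, hab]
      cases A a x <;> cases A b x <;> cases A a y <;> cases A b y <;> simp)
  rw [sum_const_size] at h1
  set P : Fin 8 → Fin 8 → Fin 8 → ℕ := fun a b c =>
    if a ≠ c then (A b a).toNat * (A b c).toNat else 0 with hP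
  have h2 : ∑ a, ∑ b, ∑ c, 2 * (P a b c + P b c a + P c a b) ≤ cost A (fun a b c => jj A a b c) := by
    refine sum_le_sum fun a _ => sum_le_sum fun b _ => sum_le_sum fun c _ => ?_
    have e1 := h.symm b a
    have e2 := h.symm c b
    have e3 := h.symm a c
    have i1 := h.irr a
    have i2 := h.irr b
    have i3 := h.irr c
    simp only [hP, jj, e1, e2, e3]
    by_cases hab : a = b
    · subst hab; simp [i1]
    by_cases hbc : b = c
    · subst hbc; simp [i2]
    by_cases hca : c = a
    · subst hca; simp [i3]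
    have hba : ¬ b = a := fun h => hab h.symm
    have hcb : ¬ c = b := fun h => hbc h.symm
    have hac : ¬ a = c := fun h => hca h.symm
    cases A a b <;> cases A b c <;> cases A c a <;> simp [*]
  have h3 := cyc P
  have h4 := cyc' P
  simp only [← mul_sum, sum_add_distrib] at h2
  rw [h3, h4] at h2
  have h5 : ∀ r : Fin 8 → Bool, 6 * ∑ a, (r a).toNat ≤
      12 + ∑ a, ∑ c, if a ≠ c then (r a).toNat * (r c).toNat else 0 := by decide +kernel
  have h6 : 6 * size A ≤ 96 + ∑ a, ∑ b, ∑ c, P a b c := by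
    rw [sum_comm]
    unfold size
    rw [mul_sum]
    calc _ ≤ ∑ b : Fin 8, (12 + ∑ a, ∑ c, P a b c) := sum_le_sum fun b _ => h5 (A b)
      _ = _ := by rw [sum_add_distrib]; simp
  omega

/-! ### The search -/

def ad (g : ℕ) : Rel := fun a b => g.testBit (8 * a.1 + b.1)

def ins (g : ℕ) (u v : Fin 8) : ℕ := g ||| 2 ^ (8 * u.1 + v.1) ||| 2 ^ (8 * v.1 + u.1)

def pc (x : ℕ) : ℕ :=
  (95125173855764218123276304889944061997689682402263585766959741291920687686033329201817409157123347502415384089435969498586180241031507595463600295898153685276653211633572815512294064538494957912327413386667662218713394765509704508661031522276467630197481635010039778342554499416459730172574551513689147646224 >>> (4 * x)) % 16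

def row (g : ℕ) (u : Fin 8) : ℕ := (g >>> (8 * u.1)) % 256

def cnt (g : ℕ) (u v : Fin 8) : ℕ := pc (row g u ||| row g v)

def S8 (f : Fin 8 → ℕ) : ℕ :=
  f ⟨0, by decide⟩ + f ⟨1, by decide⟩ + f ⟨2, by decide⟩ + f ⟨3, by decide⟩ + f ⟨4, by decide⟩ + f ⟨5, by decide⟩ + f ⟨6, by decide⟩ + f ⟨7, by decide⟩

def M8 (f : Fin 8 → ℕ) : ℕ :=
  max (f ⟨0, by decide⟩) (max (f ⟨1, by decide⟩) (max (f ⟨2, by decide⟩) (max (f ⟨3, by decide⟩) (max (f ⟨4, by decide⟩) (max (f ⟨5, by decide⟩) (max (f ⟨6, by decide⟩) (f ⟨7, by decide⟩)))))))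

def strict (n : ℕ) (f : ℕ → Bool) : Bool :=
  match n with
  | 0 => f 0
  | k + 1 => f (k + 1)

def wt (t : Bool) (g : ℕ) (a b c : Fin 8) : ℕ :=
  if jj (ad g) a b c = 3 then (if pc (row g a) + pc (row g b) + pc (row g c) = 9 then 0 else 1)
  else if jj (ad g) a b c = 2 then (if t then 2 else 1) else 0

def mx (t : Bool) (g : ℕ) (a b : Fin 8) : ℕ :=
  M8 fun x => if x.1 = a.1 ∨ x.1 = b.1 then 0 else wt t g a b x +
    M8 fun y => if ad g x y = true ∧ y.1 ≠ a.1 ∧ y.1 ≠ b.1 then wt t g a b y else 0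

def leaf (t : Bool) (g : ℕ) : Bool :=
  Nat.blt (3 * (S8 fun a => S8 fun b => if ad g a b = true then mx t g a b else 0))
    (S8 fun a => S8 fun b => S8 fun c =>
      if a.1 ≠ b.1 ∧ b.1 ≠ c.1 ∧ c.1 ≠ a.1 then wt t g a b c * (jj (ad g) a b c - 1) else 0)

def dfs : List (Fin 8 × Fin 8) → ℕ → ℕ → ℕ → ℕ → Bool
  | [], g, _, _, _ => if M8 (fun a => pc (row g a)) ≤ 4 then leaf true g else leaf false g
  | (u, v) :: R, g, m, G, k =>
    (!ad g u v && u.1 != v.1) &&
    (strict (G + cnt g u v) fun G' => strict (m + 1) fun m' => Nat.blt (2 * m') G' ||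
      strict (ins g u v) fun g' => dfs R g' m' G' k) &&
    (k == 0 || strict (k - 1) fun k' => dfs R g m G k')

theorem strict_eq (n : ℕ) (f : ℕ → Bool) : strict n f = f n := by cases n <;> rfl

theorem S8_eq (f : Fin 8 → ℕ) : S8 f = ∑ a, f a := by
  rw [Fin.sum_univ_eight]; rfl

theorem le_M8 (f : Fin 8 → ℕ) (a : Fin 8) : f a ≤ M8 f := by
  unfold M8
  fin_cases a <;> simp

theorem cnt_eq (g : ℕ) (u v : Fin 8) : cnt g u v = ∑ c, (ad g u c || ad g v c).toNat := by
  have h1 : ∀ x < 256, pc x = ∑ c : Fin 8, (x.testBit c.1).toNat := by decide +kernel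
  have h2 : ∀ (u c : Fin 8), (row g u).testBit c.1 = ad g u c := by
    intro u c
    have : (256 : ℕ) = 2 ^ 8 := rfl
    rw [row, this, Nat.testBit_mod_two_pow, Nat.testBit_shiftRight, ad]
    simp
  have h3 : row g u ||| row g v < 2 ^ 8 :=
    Nat.or_lt_two_pow (Nat.mod_lt _ (by decide)) (Nat.mod_lt _ (by decide))
  rw [cnt, h1 _ h3]
  simp only [Nat.testBit_or, h2]

theorem leaf_sound {g : ℕ} {F : Fin 8 → Fin 8 → Fin 8 → Prop} (h : Good (ad g) F) (t : Bool) :
    leaf t g = false := by
  have := count h (ad g) (fun _ _ h => h) (wt t g) (fun a b c => by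
    have e : jj (ad g) a b c = jj (ad g) b c a := by simp only [jj]; omega
    have e' : pc (row g a) + pc (row g b) + pc (row g c) =
      pc (row g b) + pc (row g c) + pc (row g a) := by omega
    simp only [wt, e, e']) (mx t g) (by
    intro a b x y _ h1 h2 h3 h4 h5
    refine le_trans ?_ (le_M8 _ x)
    rw [if_neg (by simp [Fin.val_inj, h2, h3])]
    refine Nat.add_le_add_left (le_trans ?_ (le_M8 _ y)) _
    rw [if_pos (by simp [Fin.val_inj, h1, h4, h5])])
  rw [leaf, Bool.eq_false_iff, Ne, Nat.blt_eq, not_lt]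
  simp only [S8_eq, Ne, Fin.val_inj]
  exact this

theorem ad_ins (g : ℕ) (u v a b : Fin 8) :
    ad (ins g u v) a b = (ad g a b || decide (a = u ∧ b = v) || decide (a = v ∧ b = u)) := by
  simp only [ad, ins, Nat.testBit_or, Nat.testBit_two_pow]
  have h1 : (8 * u.1 + v.1 = 8 * a.1 + b.1) ↔ (a = u ∧ b = v) := by
    rw [Fin.ext_iff, Fin.ext_iff]; omega
  have h2 : (8 * v.1 + u.1 = 8 * a.1 + b.1) ↔ (a = v ∧ b = u) := by
    rw [Fin.ext_iff, Fin.ext_iff]; omega
  simp only [h1, h2]

theorem size_ins (g : ℕ) (u v : Fin 8) : size (ad (ins g u v)) ≤ size (ad g) + 2 := by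
  unfold size
  calc _ ≤ ∑ a, ∑ b, ((ad g a b).toNat + (if b = v then (if a = u then 1 else 0) else 0) +
        (if b = u then (if a = v then 1 else 0) else 0)) := by
        refine sum_le_sum fun a _ => sum_le_sum fun b _ => ?_
        rw [ad_ins]
        have k : ∀ (X : Bool) (P Q R S : Prop) [Decidable P] [Decidable Q] [Decidable R]
            [Decidable S], (X || decide (P ∧ Q) || decide (R ∧ S)).toNat ≤ X.toNat +
            (if Q then (if P then 1 else 0) else 0) + if S then (if R then 1 else 0) else 0 := by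
          intro X P Q R S _ _ _ _
          cases X <;> by_cases P <;> by_cases Q <;> by_cases R <;> by_cases S <;> simp [*]
        exact k _ _ _ _ _
    _ = _ := by simp [sum_add_distrib]

theorem cost_ins (g : ℕ) (u v : Fin 8) (hs : ∀ a b, ad g a b = ad g b a)
    (hi : ∀ a, ad g a a = false) (huv : ad g u v = false) (hne : u ≠ v) :
    cost (ad g) (fun _ _ _ => 1) + 6 * cnt g u v ≤ cost (ad (ins g u v)) (fun _ _ _ => 1) := by
  set N : Fin 8 → ℕ := fun c => (ad g u c || ad g v c).toNat with hN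
  have hc : cnt g u v = ∑ c, N c := cnt_eq g u v
  set T : Fin 8 → Fin 8 → Fin 8 → ℕ := fun a b c =>
    (if b = v then (if a = u then N c else 0) else 0) +
      if b = u then (if a = v then N c else 0) else 0 with hT
  have h0 : ∑ a, ∑ b, ∑ c, T a b c = 2 * cnt g u v := by
    rw [hc]
    refine (sum_congr rfl fun b _ => sum_comm).trans (sum_comm.trans ?_)
    rw [mul_sum]
    refine sum_congr rfl fun c _ => ?_
    simp [hT, sum_add_distrib, two_mul]
  have h3 := cyc T
  have h4 := cyc' T
  have h5 : cost (ad g) (fun _ _ _ => 1) + 6 * cnt g u v = ∑ a, ∑ b, ∑ c,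
      ((if a ≠ b ∧ b ≠ c ∧ c ≠ a then 1 * (jj (ad g) a b c - 1) else 0) +
        (T a b c + T b c a + T c a b)) := by
    simp only [sum_add_distrib]
    rw [h3, h4, h0, cost]
    omega
  rw [h5]
  refine sum_le_sum fun a _ => sum_le_sum fun b _ => sum_le_sum fun c _ => ?_
  have hvu : ad g v u = false := by rw [hs, huv]
  have iu := hi u
  have iv := hi v
  have hne' := hne.symm
  have tri : ∀ x, u = x ∨ v = x ∨ (x ≠ u ∧ x ≠ v ∧ u ≠ x ∧ v ≠ x ∧ ad g x u = ad g u x ∧
      ad g x v = ad g v x) := by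
    intro x
    by_cases h1 : u = x
    · exact Or.inl h1
    by_cases h2 : v = x
    · exact Or.inr (Or.inl h2)
    exact Or.inr (Or.inr ⟨Ne.symm h1, Ne.symm h2, h1, h2, hs _ _, hs _ _⟩)
  simp only [hT, hN, jj, ad_ins]
  clear h5 h0 h3 h4 hc hT hN T N hs hi
  rcases tri a with rfl | rfl | ⟨a1, a2, a3, a4, a5, a6⟩ <;>
    rcases tri b with h | h | ⟨b1, b2, b3, b4, b5, b6⟩ <;> (try subst h) <;>
    rcases tri c with h | h | ⟨c1, c2, c3, c4, c5, c6⟩ <;> (try subst h) <;> clear tri <;>
    simp [*] <;> grind [Bool.toNat]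

theorem size_le {A B : Rel} (R : List (Fin 8 × Fin 8))
    (h : ∀ a b, A a b = true → B a b = true ∨ (a, b) ∈ R ∨ (b, a) ∈ R) :
    size A ≤ size B + 2 * R.length := by
  have e : ∀ C : Rel, size C = (univ.filter fun q : Fin 8 × Fin 8 => C q.1 q.2 = true).card := by
    intro C
    rw [size, card_filter, Fintype.sum_prod_type]
    refine sum_congr rfl fun a _ => sum_congr rfl fun b _ => ?_
    cases C a b <;> simp
  rw [e, e]
  calc _ ≤ ((univ.filter fun q : Fin 8 × Fin 8 => B q.1 q.2 = true) ∪ R.toFinset ∪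
        (R.map Prod.swap).toFinset).card := by
        refine card_le_card fun q hq => ?_
        rcases h q.1 q.2 (by simpa using hq) with h | h | h
        · simp [h]
        · simp [h]
        · refine mem_union_right _ ?_
          rw [List.mem_toFinset, List.mem_map]
          exact ⟨_, h, rfl⟩
    _ ≤ _ := by
        have h1 := List.toFinset_card_le R
        have h2 := List.toFinset_card_le (R.map Prod.swap)
        rw [List.length_map] at h2
        refine (card_union_le _ _).trans ?_
        have h3 := card_union_le (univ.filter fun q : Fin 8 × Fin 8 => B q.1 q.2 = true) R.toFinset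
        omega

theorem dfs_sound {A : Rel} {F : Fin 8 → Fin 8 → Fin 8 → Prop} (h : Good A F) (hA : 28 ≤ size A) :
    ∀ (R : List (Fin 8 × Fin 8)) (g m G k : ℕ), (∀ a b, ad g a b = ad g b a) →
      (∀ a b, ad g a b = true → A a b = true) →
      (∀ a b, A a b = true → ad g a b = true ∨ (a, b) ∈ R ∨ (b, a) ∈ R) →
      size (ad g) ≤ 2 * m → 6 * G ≤ cost (ad g) (fun _ _ _ => 1) → m + R.length ≤ 14 + k →
      dfs R g m G k = false := by
  intro R
  induction R with
  | nil =>
    intro g m G k _ h2 h3 _ _ _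
    have : ad g = A := by
      funext a b
      cases hab : A a b
      · cases hg : ad g a b
        · rfl
        · rw [h2 a b hg] at hab; cases hab
      · simpa using h3 a b hab
    subst this
    simp [dfs, leaf_sound h]
  | cons q R ih =>
    obtain ⟨u, v⟩ := q
    intro g m G k h1 h2 h3 h4 h5 h6
    simp only [dfs, strict_eq]
    cases hg : ad g u v
    swap
    · simp
    by_cases hne : u = v
    · simp [hne]
    have hi : ∀ a, ad g a a = false := fun a => by
      cases ha : ad g a a
      · rfl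
      · have := h2 a a ha
        rw [h.irr] at this; cases this
    simp only [List.length_cons] at h6
    cases huv : A u v
    · have h3' : ∀ a b, A a b = true → ad g a b = true ∨ (a, b) ∈ R ∨ (b, a) ∈ R := by
        intro a b hab
        rcases h3 a b hab with h' | h' | h'
        · exact Or.inl h'
        · rcases List.mem_cons.1 h' with h' | h'
          · obtain ⟨rfl, rfl⟩ := Prod.mk.inj h'
            rw [hab] at huv; cases huv
          · exact Or.inr (Or.inl h')
        · rcases List.mem_cons.1 h' with h' | h'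
          · obtain ⟨rfl, rfl⟩ := Prod.mk.inj h'
            rw [h.symm, hab] at huv; cases huv
          · exact Or.inr (Or.inr h')
      cases k with
      | zero => have := size_le R h3'; omega
      | succ k => simp [ih g m G k h1 h2 h3' h4 h5 (by omega)]
    · have g2 : ∀ a b, ad (ins g u v) a b = true → A a b = true := by
        intro a b hab
        rw [ad_ins] at hab
        simp only [Bool.or_eq_true, decide_eq_true_eq] at hab
        rcases hab with (hab | ⟨rfl, rfl⟩) | ⟨rfl, rfl⟩
        · exact h2 a b hab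
        · exact huv
        · rw [h.symm]; exact huv
      have c1 := cost_ins g u v h1 hi hg hne
      have c2 := size_ins g u v
      have c3 := count_one h _ g2
      have hb : Nat.blt (2 * (m + 1)) (G + cnt g u v) = false := by
        rw [Bool.eq_false_iff, Ne, Nat.blt_eq]; omega
      have := ih (ins g u v) (m + 1) (G + cnt g u v) k (by
          intro a b
          rw [ad_ins, ad_ins, h1 a b]
          cases ad g b a <;> simp [and_comm, Bool.or_comm]) g2 (by
          intro a b hab
          rw [ad_ins]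
          rcases h3 a b hab with h' | h' | h'
          · simp [h']
          · rcases List.mem_cons.1 h' with h' | h'
            · obtain ⟨rfl, rfl⟩ := Prod.mk.inj h'; simp
            · simp [h']
          · rcases List.mem_cons.1 h' with h' | h'
            · obtain ⟨rfl, rfl⟩ := Prod.mk.inj h'; simp
            · simp [h']) (by omega) (by omega) (by omega)
      simp [hb, this]

def R0 : List (Fin 8 × Fin 8) :=
  [(⟨4, by decide⟩, ⟨0, by decide⟩),
   (⟨4, by decide⟩, ⟨1, by decide⟩),
   (⟨4, by decide⟩, ⟨2, by decide⟩),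
   (⟨4, by decide⟩, ⟨3, by decide⟩),
   (⟨5, by decide⟩, ⟨0, by decide⟩),
   (⟨5, by decide⟩, ⟨1, by decide⟩),
   (⟨5, by decide⟩, ⟨2, by decide⟩),
   (⟨5, by decide⟩, ⟨3, by decide⟩),
   (⟨5, by decide⟩, ⟨4, by decide⟩),
   (⟨6, by decide⟩, ⟨0, by decide⟩),
   (⟨6, by decide⟩, ⟨1, by decide⟩),
   (⟨6, by decide⟩, ⟨2, by decide⟩),
   (⟨6, by decide⟩, ⟨3, by decide⟩),
   (⟨6, by decide⟩, ⟨4, by decide⟩),
   (⟨6, by decide⟩, ⟨5, by decide⟩),
   (⟨7, by decide⟩, ⟨0, by decide⟩),
   (⟨7, by decide⟩, ⟨1, by decide⟩),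
   (⟨7, by decide⟩, ⟨2, by decide⟩),
   (⟨7, by decide⟩, ⟨3, by decide⟩),
   (⟨7, by decide⟩, ⟨4, by decide⟩),
   (⟨7, by decide⟩, ⟨5, by decide⟩),
   (⟨7, by decide⟩, ⟨6, by decide⟩)]

theorem search : dfs R0 118164750 6 8 14 = true := by decide +kernel

theorem core {A : Rel} {F : Fin 8 → Fin 8 → Fin 8 → Prop} (h : Good A F) : size A < 28 := by
  by_contra hs
  rw [not_lt] at hs
  obtain ⟨a, b, x, y, h1, h2, h3, h4, h5, h6⟩ := exists_K4 h hs
  have ne : ∀ u v, A u v = true → u ≠ v := fun u v huv e => by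
    rw [e, h.irr] at huv; cases huv
  have n1 := ne _ _ h1
  have n2 := ne _ _ h2
  have n3 := ne _ _ h3
  have n4 := ne _ _ h4
  have n5 := ne _ _ h5
  have n6 := ne _ _ h6
  obtain ⟨σ, hσ⟩ := Equiv.Perm.exists_extending_pair (f := ![(0 : Fin 8), 1, 2, 3])
    (g := ![a, b, x, y]) (by decide) (by
      intro i j hij
      fin_cases i <;> fin_cases j <;>
        first
          | rfl
          | exact absurd hij (by assumption)
          | exact absurd hij.symm (by assumption))
  have e0 : σ 0 = a := hσ 0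
  have e1 : σ 1 = b := hσ 1
  have e2 : σ 2 = x := hσ 2
  have e3 : σ 3 = y := hσ 3
  have h' : Good (fun u v => A (σ u) (σ v)) (fun u v z => F (σ u) (σ v) (σ z)) := by
    refine ⟨fun u v => h.symm _ _, fun u => h.irr _, fun u v huv => ?_,
      fun u v z h1 h2 h3 => h.block _ _ _ h1 h2 (σ.injective.ne h3)⟩
    obtain ⟨x', y', k0, k1, k2, k3, k4, k5⟩ := h.host _ _ huv
    obtain ⟨x', rfl⟩ := σ.surjective x'
    obtain ⟨y', rfl⟩ := σ.surjective y'
    refine ⟨x', y', k0, fun e => k1 (by rw [e]), fun e => k2 (by rw [e]), fun e => k3 (by rw [e]),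
      fun e => k4 (by rw [e]), fun z hz => ?_⟩
    simpa using k5 _ hz
  have hs' : 28 ≤ size (fun u v => A (σ u) (σ v)) := by
    unfold size at hs ⊢
    rw [← Equiv.sum_comp σ] at hs
    refine hs.trans (le_of_eq (sum_congr rfl fun u _ => ?_))
    exact (Equiv.sum_comp σ fun v => (A (σ u) v).toNat).symm
  have k1 : ∀ u v : Fin 8, ad 118164750 u v = true → u ≠ v ∧ u.1 < 4 ∧ v.1 < 4 := by
    decide +kernel
  have k2 : ∀ u v : Fin 8, u ≠ v → ad 118164750 u v = true ∨ (u, v) ∈ R0 ∨ (v, u) ∈ R0 := by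
    decide +kernel
  have := dfs_sound h' hs' R0 118164750 6 8 14 (by decide +kernel) (by
    intro u v huv
    obtain ⟨q1, q2, q3⟩ := k1 u v huv
    have t1 := h.symm a b
    have t2 := h.symm x y
    have t3 := h.symm a x
    have t4 := h.symm b x
    have t5 := h.symm a y
    have t6 := h.symm b y
    fin_cases u <;> fin_cases v <;> simp_all)
    (fun u v huv => k2 u v fun e => by rw [e, h.irr] at huv; cases huv)
    (by decide +kernel) (by decide +kernel) (by decide)
  rw [search] at this
  cases this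

/-! ### The two bounds -/

theorem upper : s 8 (pathGraph 3) ≤ 13 := by
  classical
  refine csSup_le' ?_
  rintro m ⟨H, f, hf, hb, rfl⟩
  have h : Good (fun a b => decide (H.Adj a b)) (fun a b z => z ∈ f s(a, b)) := by
    refine ⟨fun a b => by simp [H.adj_comm], fun a => by simp, fun a b hab => ?_,
      fun a b c hab hbc hac => ?_⟩
    · obtain ⟨h1, h2⟩ := hf s(a, b) (by simpa using hab)
      induction' hq : f s(a, b) using Sym2.ind with x y
      rw [hq] at h1 h2
      have ha := h2 a (by simp)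
      have hb := h2 b (by simp)
      simp only [Sym2.mem_iff, not_or] at ha hb
      exact ⟨x, y, by simpa using h1, Ne.symm ha.1, Ne.symm hb.1, Ne.symm ha.2, Ne.symm hb.2,
        fun z hz => by simpa using hz⟩
    · have hab' : H.Adj a b := by simpa using hab
      have hbc' : H.Adj b c := by simpa using hbc
      have n1 := hab'.ne
      have n2 := hbc'.ne
      by_contra hc
      rw [not_or] at hc
      refine hb ⟨⟨![a, b, c], ?_⟩, ?_⟩ ?_
      · intro i j hij
        rw [pathGraph_adj] at hij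
        fin_cases i <;> fin_cases j <;> simp_all [H.adj_comm]
      · intro i j hij
        fin_cases i <;> fin_cases j <;> simp_all [eq_comm]
      · have d1 := (hf s(a, b) hab').2
        have d2 := (hf s(b, c) hbc').2
        have d3 := d1 a (by simp)
        have d4 := d1 b (by simp)
        have d5 := d2 b (by simp)
        have d6 := d2 c (by simp)
        have s1 : s(b, a) = s(a, b) := Sym2.eq_swap
        have s2 : s(c, b) = s(b, c) := Sym2.eq_swap
        have k1 : ∀ w, ![a, b, c] w ∉ f s(a, b) := fun w => by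
          fin_cases w
          exacts [d3, d4, hc.1]
        have k2 : ∀ w, ![a, b, c] w ∉ f s(b, c) := fun w => by
          fin_cases w
          exacts [hc.2, d5, d6]
        have k3 : ∀ w, ![a, b, c] w ∉ f s(b, a) := by rw [s1]; exact k1
        have k4 : ∀ w, ![a, b, c] w ∉ f s(c, b) := by rw [s2]; exact k2
        intro e he w
        induction e using Sym2.ind with
        | _ i j =>
          rw [mem_edgeSet, pathGraph_adj] at he
          show ![a, b, c] w ∉ f s(![a, b, c] i, ![a, b, c] j)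
          fin_cases i <;> fin_cases j <;>
            first
              | exact k1 w
              | exact k2 w
              | exact k3 w
              | exact k4 w
              | exact absurd he (by decide)
  have h1 := core h
  have h2 : size (fun a b => decide (H.Adj a b)) = ∑ v, H.degree v := by
    refine sum_congr rfl fun a _ => ?_
    rw [← card_neighborFinset_eq_degree, neighborFinset_eq_filter, card_filter]
    refine sum_congr rfl fun b _ => ?_
    by_cases hab : H.Adj a b <;> simp [hab]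
  rw [h2, sum_degrees_eq_twice_card_edges] at h1
  rw [← coe_edgeFinset, Set.ncard_coe_finset]
  show _ ≤ 13
  omega

def tb : Fin 8 → Fin 8 → Fin 8 × Fin 8 :=
  ![![(0, 0), (0, 1), (5, 7), (0, 3), (0, 4), (3, 7), (0, 6), (2, 5)],
    ![(0, 1), (1, 1), (1, 2), (4, 5), (2, 3), (1, 5), (3, 4), (1, 7)],
    ![(5, 7), (1, 2), (2, 2), (2, 3), (0, 6), (0, 4), (2, 6), (4, 5)],
    ![(0, 3), (4, 5), (2, 3), (3, 3), (2, 6), (2, 4), (1, 5), (3, 7)],
    ![(0, 4), (2, 3), (0, 6), (2, 6), (4, 4), (4, 5), (1, 3), (4, 7)],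
    ![(3, 7), (1, 5), (0, 4), (2, 4), (4, 5), (5, 5), (5, 6), (2, 3)],
    ![(0, 6), (3, 4), (2, 6), (1, 5), (1, 3), (5, 6), (6, 6), (6, 7)],
    ![(2, 5), (1, 7), (4, 5), (3, 7), (4, 7), (2, 3), (6, 7), (7, 7)]]

def f0 : Sym2 (Fin 8) → Sym2 (Fin 8) :=
  Sym2.lift ⟨fun a b => s((tb a b).1, (tb a b).2), by decide +kernel⟩

theorem lower : 14 ≤ p 8 (pathGraph 3) := by
  refine le_csSup ⟨Nat.choose 8 2, fun m hm => hm.1⟩ ⟨by decide, f0, ?_, ?_, ?_⟩
  · intro e
    induction e using Sym2.ind with
    | _ a b =>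
      simp only [mem_edgeSet, top_adj, f0, Sym2.lift_mk]
      revert a b
      decide +kernel
  · have : {e | e ∈ (⊤ : SimpleGraph (Fin 8)).edgeSet ∧ Disj e (f0 e)} =
        ((univ.filter fun e : Sym2 (Fin 8) => ¬ e.IsDiag ∧ ∀ v, v ∈ e → v ∉ f0 e : Finset _) :
          Set _) := by
      ext e; simp [Disj]
    rw [this, Set.ncard_coe_finset]
    decide +kernel
  · intro c hc
    have k : ∀ x y z : Fin 8, x ≠ y → y ≠ z → x ≠ z → ¬ (x ∉ f0 s(x, y) ∧ y ∉ f0 s(x, y) ∧
        z ∉ f0 s(x, y) ∧ x ∉ f0 s(y, z) ∧ y ∉ f0 s(y, z) ∧ z ∉ f0 s(y, z)) := by decide +kernel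
    have e1 := hc s(0, 1) (by simp [pathGraph_adj])
    have e2 := hc s(1, 2) (by simp [pathGraph_adj])
    exact k (c 0) (c 1) (c 2) (c.injective.ne (by decide)) (c.injective.ne (by decide))
      (c.injective.ne (by decide)) ⟨e1 0, e1 1, e1 2, e2 0, e2 1, e2 2⟩

/-- For the path with two edges and `n = 8` the host-graph number is smaller than the global one. -/
theorem result : s 8 (pathGraph 3) ≤ 13 ∧ 14 ≤ p 8 (pathGraph 3) := ⟨upper, lower⟩

end Pool.Agent.Results.MP_f12eed_co.PathThree
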